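import Pool.Agent.Run7.h480.PK.Key
import Pool.Agent.H373R2.T7.LamZ2

/-!
# Project PK (helper480): GALK, the average of the truncated singular series of prime `k`-tuples
-/

set_option autoImplicit false

namespace Pool.Agent.Run7.h480.PK

open Finset Run7.h994.PK
open Pool.Agent.H373R2.T7 (pz Vz)

lemma pz_prime {w p : ℕ} (hp : p ∈ pz w) : p.Prime := (mem_filter.1 hp).2

/-- CRT for sums of products of periodic functions, two moduli -/
lemma sum_crt (m₁ m₂ : ℕ) (h₁ : 0 < m₁) (h₂ : 0 < m₂) (hc : Nat.Coprime m₁ m₂)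
    (F₁ F₂ : ℕ → ℝ) (hF₁ : Function.Periodic F₁ m₁) (hF₂ : Function.Periodic F₂ m₂) :
    ∑ n ∈ range (m₁ * m₂), F₁ n * F₂ n = (∑ n ∈ range m₁, F₁ n) * ∑ n ∈ range m₂, F₂ n := by
  rw [Finset.sum_mul_sum, ← Finset.sum_product']
  refine Finset.sum_bij' (fun n _ => (n % m₁, n % m₂))
    (fun p _ => (Nat.chineseRemainder hc p.1 p.2 : ℕ)) ?_ ?_ ?_ ?_ ?_
  · intro n _
    simp [Nat.mod_lt _ h₁, Nat.mod_lt _ h₂]
  · intro p _
    rw [mem_range]
    exact Nat.chineseRemainder_lt_mul hc p.1 p.2 h₁.ne' h₂.ne'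
  · intro n hn
    rw [mem_range] at hn
    have h3 := Nat.chineseRemainder_modEq_unique hc (z := n)
      (Nat.mod_modEq n m₁).symm (Nat.mod_modEq n m₂).symm
    have h4 := Nat.chineseRemainder_lt_mul hc (n % m₁) (n % m₂) h₁.ne' h₂.ne'
    exact (Nat.ModEq.eq_of_lt_of_lt h3.symm h4 hn)
  · intro p hp
    rw [mem_product, mem_range, mem_range] at hp
    obtain ⟨h3, h4⟩ := (Nat.chineseRemainder hc p.1 p.2).2
    refine Prod.ext ?_ ?_
    · have : ((Nat.chineseRemainder hc p.1 p.2 : ℕ)) % m₁ = p.1 % m₁ := h3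
      simp only
      rw [this, Nat.mod_eq_of_lt hp.1]
    · have : ((Nat.chineseRemainder hc p.1 p.2 : ℕ)) % m₂ = p.2 % m₂ := h4
      simp only
      rw [this, Nat.mod_eq_of_lt hp.2]
  · intro n _
    simp only
    rw [hF₁.map_mod_nat n, hF₂.map_mod_nat n]

/-- the Chinese remainder theorem for products over primes -/
lemma crt_prod (F : ℕ → ℕ → ℝ) (hF : ∀ p, Function.Periodic (F p) p) (S : Finset ℕ)
    (hS : ∀ p ∈ S, p.Prime) :
    ∑ n ∈ range (∏ p ∈ S, p), ∏ p ∈ S, F p n = ∏ p ∈ S, ∑ n ∈ range p, F p n := by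
  classical
  induction S using Finset.induction_on with
  | empty => simp
  | insert q S hq ih =>
    have hS' : ∀ p ∈ S, p.Prime := fun p hp => hS p (mem_insert_of_mem hp)
    have hqp : q.Prime := hS q (mem_insert_self _ _)
    rw [prod_insert hq, prod_insert hq, ← ih hS']
    simp only [prod_insert hq]
    have hper : Function.Periodic (fun n => ∏ p ∈ S, F p n) (∏ p ∈ S, p) := by
      intro n
      refine prod_congr rfl fun p hp => ?_
      obtain ⟨k, hk⟩ := dvd_prod_of_mem (fun p => p) hp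
      have h1 : Function.Periodic (F p) (k * p) := (hF p).nat_mul k
      rw [hk, mul_comm]
      exact h1 n
    refine sum_crt q (∏ p ∈ S, p) hqp.pos
      (prod_pos fun p hp => (hS' p hp).pos) ?_ _ _ (hF q) hper
    rw [Nat.coprime_prod_right_iff]
    intro p hp
    rw [Nat.coprime_primes hqp (hS' p hp)]
    rintro rfl
    exact hq hp

/-- the indicator of the residues with no `p ∣ n + u_i` -/
def Fx {k : ℕ} (u : Fin k → ℕ) (p n : ℕ) : ℝ := ∏ i, if p ∣ n + u i then 0 else 1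

lemma Fx_per {k : ℕ} (u : Fin k → ℕ) (p : ℕ) : Function.Periodic (Fx u p) p := by
  intro n
  unfold Fx
  refine prod_congr rfl fun i _ => ?_
  have h : p ∣ n + p + u i ↔ p ∣ n + u i := by
    have : n + p + u i = (n + u i) + p := by ring
    rw [this]
    exact Nat.dvd_add_self_right
  simp only [h]

/-- the local count -/
lemma local_le {k : ℕ} (u : Fin k → ℕ) (p : ℕ) :
    (p : ℝ) - nuk u p ≤ ∑ n ∈ range p, Fx u p n := by
  classical
  have h1 : ∀ n ∈ range p, Fx u p n = if ∃ i, p ∣ n + u i then 0 else 1 := by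
    intro n _
    unfold Fx
    split_ifs with h
    · obtain ⟨i, hi⟩ := h
      exact prod_eq_zero (mem_univ i) (if_pos hi)
    · push Not at h
      refine prod_eq_one fun i _ => if_neg (h i)
  rw [sum_congr rfl h1, ← sum_filter_add_sum_filter_not (range p) (fun n => ∃ i, p ∣ n + u i)]
  have h2 : ∑ n ∈ (range p).filter (fun n => ∃ i, p ∣ n + u i),
      (if ∃ i, p ∣ n + u i then (0 : ℝ) else 1) = 0 :=
    sum_eq_zero fun n hn => if_pos (mem_filter.1 hn).2
  have h3 : ∑ n ∈ (range p).filter (fun n => ¬ ∃ i, p ∣ n + u i),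
      (if ∃ i, p ∣ n + u i then (0 : ℝ) else 1) =
      ((range p).filter (fun n => ¬ ∃ i, p ∣ n + u i)).card := by
    rw [card_eq_sum_ones, Nat.cast_sum]
    exact sum_congr rfl fun n hn => by rw [if_neg (mem_filter.1 hn).2]; simp
  rw [h2, h3, zero_add]
  have h4 : ((range p).filter (fun n => ∃ i, p ∣ n + u i)).card ≤ nuk u p := by
    unfold nuk
    refine card_le_card_of_injOn (fun n => (p - n) % p) ?_ ?_
    · intro n hn
      obtain ⟨h5, i, hi⟩ := mem_filter.1 (mem_coe.1 hn)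
      rw [mem_range] at h5
      rw [mem_coe, mem_image]
      refine ⟨i, mem_univ i, ?_⟩
      have h6 : u i ≡ p - n [MOD p] := by
        refine Nat.ModEq.add_left_cancel' n ?_
        have h7 : n + (p - n) = p := by omega
        rw [h7]
        exact ((Nat.modEq_zero_iff_dvd).2 hi).trans ((Nat.modEq_zero_iff_dvd).2 dvd_rfl).symm
      exact h6
    · intro n hn m hm he
      have h5 := mem_range.1 (mem_filter.1 (mem_coe.1 hn)).1
      have h6 := mem_range.1 (mem_filter.1 (mem_coe.1 hm)).1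
      have h7 : p - n ≡ p - m [MOD p] := he
      have h8 : n ≡ m [MOD p] := by
        have h9 : n + m + (p - n) ≡ n + m + (p - m) [MOD p] := h7.add_left _
        have e1 : n + m + (p - n) = m + p := by omega
        have e2 : n + m + (p - m) = n + p := by omega
        rw [e1, e2] at h9
        exact (Nat.ModEq.add_right_cancel' p h9).symm
      have h9 := h8
      unfold Nat.ModEq at h9
      rwa [Nat.mod_eq_of_lt h5, Nat.mod_eq_of_lt h6] at h9
  have h5 : ((range p).filter (fun n => ∃ i, p ∣ n + u i)).card +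
      ((range p).filter (fun n => ¬ ∃ i, p ∣ n + u i)).card = p := by
    rw [card_filter_add_card_filter_not, card_range]
  have h6 : (((range p).filter (fun n => ∃ i, p ∣ n + u i)).card : ℝ) +
      ((range p).filter (fun n => ¬ ∃ i, p ∣ n + u i)).card = p := by exact_mod_cast h5
  have h7 : (((range p).filter (fun n => ∃ i, p ∣ n + u i)).card : ℝ) ≤ nuk u p := by
    exact_mod_cast h4
  linarith

lemma nuk_le_p {k : ℕ} (u : Fin k → ℕ) (p : ℕ) (hp : 0 < p) : nuk u p ≤ p := by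
  unfold nuk
  have : univ.image (fun i => u i % p) ⊆ range p := by
    intro x hx
    obtain ⟨i, -, rfl⟩ := mem_image.1 hx
    exact mem_range.2 (Nat.mod_lt _ hp)
  exact (card_le_card this).trans (by simp)

/-- `φ(W) = W · Vz w` -/
lemma totient_W (w : ℕ) : ((Nat.totient (∏ p ∈ pz w, p) : ℕ) : ℝ) =
    ((∏ p ∈ pz w, p : ℕ) : ℝ) * Vz w := by
  have h1 := Nat.totient_eq_mul_prod_factors (∏ p ∈ pz w, p)
  rw [Nat.primeFactors_prod (fun p hp => pz_prime hp)] at h1
  have h2 : ((Nat.totient (∏ p ∈ pz w, p) : ℚ) : ℝ) =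
      ((((∏ p ∈ pz w, p : ℕ) : ℚ) * ∏ p ∈ pz w, (1 - (p : ℚ)⁻¹) : ℚ) : ℝ) := by rw [h1]
  push_cast at h2
  rw [Vz]
  simp only [one_div]
  rw [h2]
  push_cast
  rfl

/-- the average over a box -/
theorem avg (k w H : ℕ) :
    ∑ u ∈ inj k H, twk u w ≤ ((H : ℝ) + ((∏ p ∈ pz w, p : ℕ) : ℝ)) ^ k := by
  classical
  set W : ℕ := ∏ p ∈ pz w, p with hW
  have hWpos : 0 < W := prod_pos fun p hp => (pz_prime hp).pos
  have hWR : (0 : ℝ) < W := by exact_mod_cast hWpos
  have hV : 0 < Vz w := Pool.Agent.H373R2.T7.Vz_pos w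
  have hVk : 0 < Vz w ^ k := pow_pos hV k
  have htw : ∀ u : Fin k → ℕ, twk u w ≤
      (1 / (Vz w ^ k * W)) * ∑ n ∈ range W, ∏ i, (if W.Coprime (n + u i) then (1 : ℝ) else 0) := by
    intro u
    have h1 : twk u w = (∏ p ∈ pz w, (1 - (nuk u p : ℝ) / p)) / Vz w ^ k := by
      rw [twk, prod_div_distrib, Vz, prod_pow]
    have h2 : ∏ p ∈ pz w, (1 - (nuk u p : ℝ) / p) ≤
        ∏ p ∈ pz w, ((1 / (p : ℝ)) * ∑ n ∈ range p, Fx u p n) := by
      refine prod_le_prod (fun p hp => ?_) fun p hp => ?_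
      · have hp0 : (0 : ℝ) < p := by exact_mod_cast (pz_prime hp).pos
        have : (nuk u p : ℝ) ≤ p := by exact_mod_cast nuk_le_p u p (pz_prime hp).pos
        rw [sub_nonneg, div_le_one hp0]
        exact this
      · have hp0 : (0 : ℝ) < p := by exact_mod_cast (pz_prime hp).pos
        have h3 := local_le u p
        calc 1 - (nuk u p : ℝ) / p = (1 / (p : ℝ)) * (p - nuk u p) := by field_simp
          _ ≤ _ := mul_le_mul_of_nonneg_left h3 (by positivity)
    have h3 : ∏ p ∈ pz w, ((1 / (p : ℝ)) * ∑ n ∈ range p, Fx u p n) =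
        (1 / (W : ℝ)) * ∑ n ∈ range W, ∏ p ∈ pz w, Fx u p n := by
      rw [prod_mul_distrib, hW, crt_prod (Fx u) (Fx_per u) (pz w) (fun p hp => pz_prime hp)]
      congr 1
      rw [Nat.cast_prod]
      simp
    have h4 : ∀ n ∈ range W, ∏ p ∈ pz w, Fx u p n =
        ∏ i, (if W.Coprime (n + u i) then (1 : ℝ) else 0) := by
      intro n _
      unfold Fx
      rw [prod_comm]
      refine prod_congr rfl fun i _ => ?_
      by_cases h5 : W.Coprime (n + u i)
      · rw [if_pos h5]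
        refine prod_eq_one fun p hp => if_neg ?_
        have h6 := (Nat.coprime_prod_left_iff.1 (hW ▸ h5)) p hp
        exact ((pz_prime hp).coprime_iff_not_dvd).1 h6
      · rw [if_neg h5]
        have h6 : ∃ p ∈ pz w, p ∣ n + u i := by
          by_contra hcon
          push Not at hcon
          apply h5
          rw [hW]
          exact Nat.coprime_prod_left_iff.2 fun p hp =>
            ((pz_prime hp).coprime_iff_not_dvd).2 (hcon p hp)
        obtain ⟨p, hp, hd⟩ := h6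
        exact prod_eq_zero hp (if_pos hd)
    rw [h1, div_le_iff₀ hVk]
    refine h2.trans (le_of_eq ?_)
    rw [h3, sum_congr rfl h4]
    field_simp
  have hnn : ∀ u : Fin k → ℕ, 0 ≤ (1 / (Vz w ^ k * W)) * ∑ n ∈ range W,
      ∏ i, (if W.Coprime (n + u i) then (1 : ℝ) else 0) := by
    intro u
    refine mul_nonneg (by positivity) (sum_nonneg fun n _ => prod_nonneg fun i _ => ?_)
    split_ifs <;> norm_num
  have hcnt : ∀ n : ℕ, ∑ t ∈ Icc 1 H, (if W.Coprime (n + t) then (1 : ℝ) else 0) ≤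
      Vz w * (H + W) := by
    intro n
    rw [← sum_filter, sum_const, nsmul_eq_mul, mul_one]
    have h1 : ((Icc 1 H).filter (fun t => W.Coprime (n + t))).card ≤
        ((Ico (n + 1) (n + 1 + H)).filter (fun x => W.Coprime x)).card := by
      refine card_le_card_of_injOn (fun t => n + t) ?_ ?_
      · intro t ht
        obtain ⟨h2, h3⟩ := mem_filter.1 (mem_coe.1 ht)
        rw [mem_Icc] at h2
        rw [mem_coe, mem_filter, mem_Ico]
        exact ⟨⟨show n + 1 ≤ n + t by omega, show n + t < n + 1 + H by omega⟩, h3⟩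
      · intro a _ b _ hab
        simpa using hab
    have h2 := Nat.Ico_filter_coprime_le (a := W) (n + 1) H hWpos.ne'
    have h3 : (((Icc 1 H).filter (fun t => W.Coprime (n + t))).card : ℝ) ≤
        ((Nat.totient W * (H / W + 1) : ℕ) : ℝ) := by exact_mod_cast h1.trans h2
    refine h3.trans ?_
    push_cast
    rw [totient_W w, ← hW]
    have h4 : ((H / W : ℕ) : ℝ) ≤ (H : ℝ) / W := Nat.cast_div_le
    calc (W : ℝ) * Vz w * (((H / W : ℕ) : ℝ) + 1) ≤ (W : ℝ) * Vz w * ((H : ℝ) / W + 1) := by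
          gcongr
      _ = Vz w * (H + W) := by field_simp
  calc ∑ u ∈ inj k H, twk u w
      ≤ ∑ u ∈ inj k H, (1 / (Vz w ^ k * W)) * ∑ n ∈ range W,
          ∏ i, (if W.Coprime (n + u i) then (1 : ℝ) else 0) := sum_le_sum fun u _ => htw u
    _ ≤ ∑ u ∈ Fintype.piFinset (fun _ : Fin k => Icc 1 H), (1 / (Vz w ^ k * W)) * ∑ n ∈ range W,
          ∏ i, (if W.Coprime (n + u i) then (1 : ℝ) else 0) :=
        sum_le_sum_of_subset_of_nonneg (filter_subset _ _) fun u _ _ => hnn u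
    _ = (1 / (Vz w ^ k * W)) * ∑ n ∈ range W,
          (∑ t ∈ Icc 1 H, (if W.Coprime (n + t) then (1 : ℝ) else 0)) ^ k := by
        rw [← mul_sum, sum_comm]
        congr 1
        refine sum_congr rfl fun n _ => ?_
        have h1 := (prod_univ_sum (fun _ : Fin k => Icc 1 H)
          (fun _ t => (if W.Coprime (n + t) then (1 : ℝ) else 0))).symm
        rw [h1, prod_const, card_univ, Fintype.card_fin]
    _ ≤ (1 / (Vz w ^ k * W)) * ∑ n ∈ range W, (Vz w * (H + W)) ^ k := by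
        refine mul_le_mul_of_nonneg_left (sum_le_sum fun n _ => ?_) (by positivity)
        refine pow_le_pow_left₀ (sum_nonneg fun t _ => ?_) (hcnt n) k
        split_ifs <;> norm_num
    _ = ((H : ℝ) + W) ^ k := by
        rw [sum_const, card_range, nsmul_eq_mul, mul_pow]
        field_simp

/-- the local factor -/
noncomputable def lf {k : ℕ} (u : Fin k → ℕ) (p : ℕ) : ℝ := (1 - (nuk u p : ℝ) / p) / (1 - 1 / (p : ℝ)) ^ k

lemma one_sub_pos {p : ℕ} (hp : p.Prime) : 0 < 1 - 1 / (p : ℝ) := by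
  have hp2 : (2 : ℝ) ≤ p := by exact_mod_cast hp.two_le
  have : 1 / (p : ℝ) ≤ 1 / 2 := one_div_le_one_div_of_le (by norm_num) hp2
  linarith

lemma lf_nonneg {k : ℕ} (u : Fin k → ℕ) {p : ℕ} (hp : p.Prime) : 0 ≤ lf u p := by
  have hp0 : (0 : ℝ) < p := by exact_mod_cast hp.pos
  have h1 : (nuk u p : ℝ) ≤ p := by exact_mod_cast nuk_le_p u p hp.pos
  refine div_nonneg ?_ (pow_pos (one_sub_pos hp) k).le
  rw [sub_nonneg, div_le_one hp0]
  exact h1

lemma inv_pow_le {k p : ℕ} (hp : p.Prime) :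
    1 / (1 - 1 / (p : ℝ)) ^ k ≤ 1 + ((1 + 2 : ℝ) ^ k - 1) / p := by
  have hp2 : (2 : ℝ) ≤ p := by exact_mod_cast hp.two_le
  have h1 : 1 / (1 - 1 / (p : ℝ)) ≤ 1 + 2 / p := by
    rw [div_le_iff₀ (one_sub_pos hp)]
    have h2 : (1 + 2 / (p : ℝ)) * (1 - 1 / p) = 1 + (p - 2) / p ^ 2 := by
      field_simp
      ring
    rw [h2]
    have : 0 ≤ ((p : ℝ) - 2) / p ^ 2 := div_nonneg (by linarith) (by positivity)
    linarith
  have h2 : 1 / (1 - 1 / (p : ℝ)) ^ k = (1 / (1 - 1 / (p : ℝ))) ^ k := by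
    rw [one_div_pow]
  rw [h2]
  exact (pow_le_pow_left₀ (one_div_pos.2 (one_sub_pos hp)).le h1 k).trans
    (pow_one_add_le 2 p (by norm_num) (by linarith) k)

lemma lf_le {k : ℕ} (u : Fin k → ℕ) {p : ℕ} (hp : p.Prime) :
    lf u p ≤ if nuk u p < k then 1 + ((1 + 2 : ℝ) ^ k - 1) / p else 1 := by
  have hpos := pow_pos (one_sub_pos hp) k
  have hp0 : (0 : ℝ) < p := by exact_mod_cast hp.pos
  split_ifs with h
  · refine le_trans ?_ (inv_pow_le hp)
    refine div_le_div_of_nonneg_right ?_ hpos.le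
    have : 0 ≤ (nuk u p : ℝ) / p := by positivity
    linarith
  · have h1 : nuk u p = k := le_antisymm (nuk_le k u p) (not_lt.1 h)
    unfold lf
    rw [div_le_one hpos, h1]
    have h2 := one_add_mul_le_pow (a := -(1 / (p : ℝ))) (by
      have : 1 / (p : ℝ) ≤ 1 := by
        rw [div_le_one hp0]; exact_mod_cast hp.one_le
      linarith) k
    have h3 : (1 : ℝ) + -(1 / (p : ℝ)) = 1 - 1 / p := by ring
    rw [h3] at h2
    refine le_trans (le_of_eq ?_) h2
    ring

lemma twk_eq {k : ℕ} (u : Fin k → ℕ) (w : ℕ) : twk u w = ∏ p ∈ pz w, lf u p := rfl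

lemma pz_min (w y : ℕ) : (pz w).filter (fun p => ¬ y < p) = pz (min w y) := by
  ext p
  simp only [pz, mem_filter, mem_Icc, not_lt, le_min_iff]
  tauto

lemma pz_mono {a b : ℕ} (h : a ≤ b) : pz a ⊆ pz b := by
  intro p hp
  simp only [pz, mem_filter, mem_Icc] at hp ⊢
  exact ⟨⟨hp.1.1, hp.1.2.trans h⟩, hp.2⟩

/-- the truncated series with a bounded level -/
lemma twk_small {k : ℕ} (u : Fin k → ℕ) (w y : ℕ) (hwy : w ≤ y) : twk u w ≤ ((Vz y)⁻¹) ^ k := by
  have h0 : ∀ p ∈ pz y, (1 : ℝ) ≤ 1 / (1 - 1 / (p : ℝ)) ^ k := by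
    intro p hp
    have h1 := one_sub_pos (pz_prime hp)
    rw [le_div_iff₀ (pow_pos h1 k), one_mul]
    refine pow_le_one₀ h1.le ?_
    have : 0 ≤ 1 / (p : ℝ) := by positivity
    linarith
  have h1 : twk u w ≤ ∏ p ∈ pz w, 1 / (1 - 1 / (p : ℝ)) ^ k := by
    rw [twk_eq]
    refine prod_le_prod (fun p hp => lf_nonneg u (pz_prime hp)) fun p hp => ?_
    refine div_le_div_of_nonneg_right ?_ (pow_pos (one_sub_pos (pz_prime hp)) k).le
    have : 0 ≤ (nuk u p : ℝ) / p := by positivity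
    linarith
  have h2 : ∏ p ∈ pz w, 1 / (1 - 1 / (p : ℝ)) ^ k ≤ ∏ p ∈ pz y, 1 / (1 - 1 / (p : ℝ)) ^ k := by
    rw [← prod_sdiff (pz_mono hwy)]
    refine le_mul_of_one_le_left (prod_nonneg fun p hp => ?_) ?_
    · exact le_trans zero_le_one (h0 p (pz_mono hwy hp))
    · calc (1 : ℝ) = ∏ p ∈ pz y \ pz w, (1 : ℝ) := by simp
        _ ≤ _ := prod_le_prod (fun _ _ => zero_le_one) fun p hp => h0 p (mem_sdiff.1 hp).1
  have h3 : ∏ p ∈ pz y, 1 / (1 - 1 / (p : ℝ)) ^ k = ((Vz y)⁻¹) ^ k := by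
    rw [Vz, ← prod_inv_distrib, ← prod_pow]
    refine prod_congr rfl fun p _ => ?_
    rw [one_div, inv_pow]
  rw [← h3]
  exact h1.trans h2

/-- the splitting at the level `y` -/
lemma twk_split {k : ℕ} (u : Fin k → ℕ) (w y : ℕ) :
    twk u w ≤ twk u (min w y) * ∏ p ∈ ((pz w).filter (fun p => y < p)).filter (fun p => nuk u p < k),
      (1 + ((1 + 2 : ℝ) ^ k - 1) / (p : ℝ)) := by
  rw [twk_eq, twk_eq, ← pz_min, ← prod_filter_mul_prod_filter_not (pz w) (fun p => y < p), mul_comm]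
  refine mul_le_mul_of_nonneg_left ?_ (prod_nonneg fun p hp => lf_nonneg u (pz_prime (mem_filter.1 hp).1))
  rw [prod_filter (fun p => nuk u p < k)]
  exact prod_le_prod (fun p hp => lf_nonneg u (pz_prime (mem_filter.1 hp).1))
    fun p hp => lf_le u (pz_prime (mem_filter.1 hp).1)

/-- **GALK** -/
theorem galk (k : ℕ) (hk : 1 ≤ k) : S_GALk k := by
  intro η hη
  set C : ℝ := (1 + 2 : ℝ) ^ k - 1 with hC
  have hC0 : 0 ≤ C := by
    have : (1 : ℝ) ≤ (1 + 2 : ℝ) ^ k := one_le_pow₀ (by norm_num)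
    linarith
  set c : ℝ := (1 + C) ^ (TT k).card - 1 with hc
  have hc0 : 0 ≤ c := by
    have : (1 : ℝ) ≤ (1 + C) ^ (TT k).card := one_le_pow₀ (by linarith)
    linarith
  obtain ⟨N0, hN0⟩ := Pool.Agent.H373R2.T7.Vz_inv_small (2 * k)
  obtain ⟨t, ht⟩ : ∃ t : ℕ, (N0 : ℝ) + 1 + c + 2 ^ (k + 3) * c / η ≤ t := exists_nat_ge _
  have hx0 : 0 ≤ 2 ^ (k + 3) * c / η := by positivity
  have ht1 : (1 : ℝ) ≤ t := by
    have : (0 : ℝ) ≤ N0 := by positivity
    linarith
  have ht0 : (0 : ℝ) < t := by linarith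
  have htn : 1 ≤ t := by exact_mod_cast ht1
  set y : ℕ := t ^ (2 * k) with hy
  have hy1 : 1 ≤ y := Nat.one_le_pow _ _ htn
  have hyR : (y : ℝ) = (t : ℝ) ^ (2 * k) := by rw [hy]; push_cast; rfl
  have hyt : (t : ℝ) ≤ (t : ℝ) ^ k := le_self_pow₀ ht1 (by omega)
  have hy2 : (t : ℝ) ^ (2 * k) = (t : ℝ) ^ k * (t : ℝ) ^ k := by rw [← pow_add]; congr 1; omega
  have htk1 : (1 : ℝ) ≤ (t : ℝ) ^ k := one_le_pow₀ ht1
  -- the bound for the series of level `y`
  have hB : ((Vz y)⁻¹) ^ k ≤ (2 * (t : ℝ)) ^ k := by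
    set N : ℕ := ⌈Real.exp t⌉₊ with hN
    have hexp : (t : ℝ) + 1 ≤ Real.exp t := Real.add_one_le_exp _
    have hNge : Real.exp t ≤ N := Nat.le_ceil _
    have hNlt : (N : ℝ) < Real.exp t + 1 := Nat.ceil_lt_add_one (Real.exp_pos _).le
    have hN0' : N0 ≤ N := by
      have : (N0 : ℝ) ≤ N := by linarith
      exact_mod_cast this
    have hNpos : (0 : ℝ) < N := lt_of_lt_of_le (Real.exp_pos _) hNge
    have hlog : (t : ℝ) ≤ Real.log N := by
      rw [Real.le_log_iff_exp_le hNpos]; exact hNge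
    have h1 := hN0 N hN0' y hy1 (by
      rw [hyR]
      exact pow_le_pow_left₀ ht0.le hlog _)
    have h2 : Real.log N ≤ 2 * t := by
      have h3 : (N : ℝ) ≤ 2 * Real.exp t := by linarith
      have h4 := Real.log_le_log hNpos h3
      rw [Real.log_mul (by norm_num) (Real.exp_pos _).ne', Real.log_exp] at h4
      have := Real.log_two_lt_d9
      linarith
    refine pow_le_pow_left₀ (inv_pos.2 (Pool.Agent.H373R2.T7.Vz_pos y)).le (h1.trans h2) k
  have hEbound : ((Vz y)⁻¹) ^ k * (2 * (Real.exp (c / y) - 1)) ≤ η / 2 := by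
    have h1 : c / y ≤ 1 := by
      rw [div_le_one (by positivity), hyR, hy2]
      have : c ≤ t := by
        have : (0 : ℝ) ≤ N0 := by positivity
        linarith
      nlinarith
    have h2 : 0 ≤ c / y := by positivity
    have h3 := (abs_le.1 (Real.abs_exp_sub_one_le (x := c / y) (by rw [abs_of_nonneg h2]; exact h1))).2
    rw [abs_of_nonneg h2] at h3
    have h4 : 0 ≤ Real.exp (c / y) - 1 := by
      have := Real.add_one_le_exp (c / y)
      linarith
    have h5 : ((Vz y)⁻¹) ^ k * (2 * (Real.exp (c / y) - 1)) ≤ (2 * (t : ℝ)) ^ k * (2 * (2 * (c / y))) :=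
      mul_le_mul hB (by linarith) (by linarith) (by positivity)
    refine h5.trans ?_
    have h6 : (2 * (t : ℝ)) ^ k * (2 * (2 * (c / y))) = 2 ^ (k + 2) * c / (t : ℝ) ^ k := by
      rw [hyR, hy2, mul_pow, pow_add]
      field_simp
    rw [h6, div_le_iff₀ (by positivity)]
    have h7 : 2 ^ (k + 3) * c / η ≤ (t : ℝ) ^ k := by
      have : (0 : ℝ) ≤ N0 := by positivity
      linarith
    rw [div_le_iff₀ hη] at h7
    have h8 : (2 : ℝ) ^ (k + 3) = 2 * 2 ^ (k + 2) := by rw [pow_succ' 2 (k + 2)]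
    rw [h8] at h7
    linarith
  -- the bound for `H`
  set W₀ : ℕ := ∏ p ∈ pz y, p with hW₀
  have hW₀pos : 0 < W₀ := prod_pos fun p hp => (pz_prime hp).pos
  have hW₀R : (0 : ℝ) < W₀ := by exact_mod_cast hW₀pos
  obtain ⟨H₀, hH₀⟩ : ∃ H₀ : ℕ, (W₀ : ℝ) + 2 * (2 ^ k * W₀) / η ≤ H₀ := exists_nat_ge _
  refine ⟨H₀, fun H hH w _ => ?_⟩
  have hHR : (H₀ : ℝ) ≤ H := by exact_mod_cast hH
  have hz0 : 0 ≤ 2 * (2 ^ k * (W₀ : ℝ)) / η := by positivity
  have hHW : (W₀ : ℝ) ≤ H := by linarith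
  have hHpos : (0 : ℝ) < H := by linarith
  have hpow : ((H : ℝ) + W₀) ^ k ≤ (1 + η / 2) * (H : ℝ) ^ k := by
    have h1 := pow_one_add_le 1 (H / W₀ : ℝ) (by norm_num) (by rw [le_div_iff₀ hW₀R]; linarith) k
    have h2 : ((H : ℝ) + W₀) ^ k = (1 + 1 / (H / W₀ : ℝ)) ^ k * (H : ℝ) ^ k := by
      rw [← mul_pow]
      congr 1
      field_simp
    rw [h2]
    refine mul_le_mul_of_nonneg_right (h1.trans ?_) (by positivity)
    have h3 : ((1 + 1 : ℝ) ^ k - 1) / (H / W₀ : ℝ) ≤ η / 2 := by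
      rw [div_le_iff₀ (by positivity)]
      have h4 : 2 * (2 ^ k * (W₀ : ℝ)) / η ≤ H := by linarith
      rw [div_le_iff₀ hη] at h4
      have h5 : η / 2 * (H / W₀ : ℝ) = (H * η) / (2 * W₀) := by field_simp
      rw [h5, le_div_iff₀ (by positivity)]
      have h6 : (1 + 1 : ℝ) ^ k = 2 ^ k := by norm_num
      rw [h6]
      nlinarith
    linarith
  set P := (pz w).filter (fun p => y < p) with hP
  have hkey := key k C hC0 P (fun p hp => pz_prime (mem_filter.1 hp).1) y w hy1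
    (fun p hp => ⟨(mem_filter.1 hp).2, (mem_Icc.1 (mem_filter.1 (mem_filter.1 hp).1).1).2⟩) H
  rw [← hc] at hkey
  have hge1 : ∀ u : Fin k → ℕ, 0 ≤ ∏ p ∈ P.filter (fun p => nuk u p < k), (1 + C / (p : ℝ)) - 1 := by
    intro u
    have : (1 : ℝ) ≤ ∏ p ∈ P.filter (fun p => nuk u p < k), (1 + C / (p : ℝ)) := by
      calc (1 : ℝ) = ∏ p ∈ P.filter (fun p => nuk u p < k), (1 : ℝ) := by simp
        _ ≤ _ := prod_le_prod (fun _ _ => zero_le_one) fun p _ => by
            have : 0 ≤ C / (p : ℝ) := by positivity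
            linarith
    linarith
  have hpt : ∀ u ∈ inj k H, twk u w ≤ twk u (min w y) + ((Vz y)⁻¹) ^ k *
      (∏ p ∈ P.filter (fun p => nuk u p < k), (1 + C / (p : ℝ)) - 1) := by
    intro u _
    have h1 := twk_split u w y
    have h2 := twk_small u (min w y) y (min_le_right _ _)
    have h3 := mul_le_mul_of_nonneg_right h2 (hge1 u)
    have h4 : twk u (min w y) * ∏ p ∈ P.filter (fun p => nuk u p < k), (1 + C / (p : ℝ)) =
        twk u (min w y) + twk u (min w y) *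
          (∏ p ∈ P.filter (fun p => nuk u p < k), (1 + C / (p : ℝ)) - 1) := by ring
    rw [← hC, ← hP, h4] at h1
    linarith
  have havg := avg k (min w y) H
  have hWle : ((∏ p ∈ pz (min w y), p : ℕ) : ℝ) ≤ W₀ := by
    have : ∏ p ∈ pz (min w y), p ≤ W₀ :=
      Nat.le_of_dvd hW₀pos (prod_dvd_prod_of_subset _ _ _ (pz_mono (min_le_right _ _)))
    exact_mod_cast this
  have havg2 : ∑ u ∈ inj k H, twk u (min w y) ≤ (1 + η / 2) * (H : ℝ) ^ k := by
    refine havg.trans (le_trans ?_ hpow)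
    exact pow_le_pow_left₀ (by positivity) (by linarith) k
  calc ∑ u ∈ inj k H, twk u w
      ≤ ∑ u ∈ inj k H, (twk u (min w y) + ((Vz y)⁻¹) ^ k *
          (∏ p ∈ P.filter (fun p => nuk u p < k), (1 + C / (p : ℝ)) - 1)) := sum_le_sum hpt
    _ = ∑ u ∈ inj k H, twk u (min w y) + ((Vz y)⁻¹) ^ k *
          ∑ u ∈ inj k H, (∏ p ∈ P.filter (fun p => nuk u p < k), (1 + C / (p : ℝ)) - 1) := by
        rw [sum_add_distrib, mul_sum]
    _ ≤ (1 + η / 2) * (H : ℝ) ^ k + ((Vz y)⁻¹) ^ k * (2 * (H : ℝ) ^ k * (Real.exp (c / y) - 1)) := by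
        refine add_le_add havg2 (mul_le_mul_of_nonneg_left hkey ?_)
        exact pow_nonneg (inv_pos.2 (Pool.Agent.H373R2.T7.Vz_pos y)).le k
    _ = (1 + η / 2) * (H : ℝ) ^ k +
          (((Vz y)⁻¹) ^ k * (2 * (Real.exp (c / y) - 1))) * (H : ℝ) ^ k := by ring
    _ ≤ (1 + η / 2) * (H : ℝ) ^ k + (η / 2) * (H : ℝ) ^ k := by
        gcongr
    _ = (1 + η) * (H : ℝ) ^ k := by ring

end Pool.Agent.Run7.h480.PK
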