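import Mathlib

/-!
# Project PK (helper480): averages of products over the prime divisors of the differences

General part for the pieces GALK and DIV of helper994.
-/

set_option autoImplicit false

namespace Pool.Agent.Run7.h480.PK

open Finset

/-- `(1 + C/p)^K ≤ 1 + ((1+C)^K - 1)/p` -/
lemma pow_one_add_le (C p : ℝ) (hC : 0 ≤ C) (hp : 1 ≤ p) (K : ℕ) :
    (1 + C / p) ^ K ≤ 1 + ((1 + C) ^ K - 1) / p := by
  have hp0 : 0 < p := by linarith
  induction K with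
  | zero => simp
  | succ K ih =>
    have hA : 1 ≤ (1 + C) ^ K := one_le_pow₀ (by linarith)
    have h0 : 0 ≤ 1 + C / p := by positivity
    have h1 : (1 + C / p) ^ (K + 1) ≤ (1 + ((1 + C) ^ K - 1) / p) * (1 + C / p) := by
      rw [pow_succ]
      exact mul_le_mul_of_nonneg_right ih h0
    refine h1.trans ?_
    have h2 : ((1 + C) ^ K - 1) / p * (C / p) ≤ ((1 + C) ^ K - 1) * C / p := by
      have h3 : 0 ≤ ((1 + C) ^ K - 1) * C / p :=
        div_nonneg (mul_nonneg (by linarith) hC) hp0.le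
      have h4 : ((1 + C) ^ K - 1) / p * (C / p) = ((1 + C) ^ K - 1) * C / p / p := by
        field_simp
      rw [h4]
      exact div_le_self h3 hp
    have h5 : 1 + ((1 + C) ^ (K + 1) - 1) / p =
        1 + ((1 + C) ^ K - 1) / p + C / p + ((1 + C) ^ K - 1) * C / p := by
      rw [pow_succ]; ring
    rw [h5]
    nlinarith

/-- the inequality between the arithmetic and the geometric mean -/
lemma amgm {ι : Type*} (T : Finset ι) (hT : T.Nonempty) (f : ι → ℝ) (hf : ∀ t ∈ T, 0 ≤ f t) :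
    ∏ t ∈ T, f t ≤ (1 / (T.card : ℝ)) * ∑ t ∈ T, f t ^ T.card := by
  have hK : T.card ≠ 0 := (card_pos.2 hT).ne'
  have hKR : (0 : ℝ) < T.card := by exact_mod_cast card_pos.2 hT
  have h1 := Real.geom_mean_le_arith_mean_weighted T (fun _ => 1 / (T.card : ℝ))
    (fun t => f t ^ T.card) (fun _ _ => by positivity)
    (by rw [sum_const, nsmul_eq_mul]; field_simp) (fun t ht => pow_nonneg (hf t ht) _)
  have h2 : ∏ t ∈ T, (f t ^ T.card) ^ (1 / (T.card : ℝ)) = ∏ t ∈ T, f t := by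
    refine prod_congr rfl fun t ht => ?_
    rw [one_div]
    exact Real.pow_rpow_inv_natCast (hf t ht) hK
  rw [h2] at h1
  rw [mul_sum]
  exact h1

/-- number of the pairs with `a ≡ b` -/
lemma card_pairs_le (H M : ℕ) (hM : 0 < M) :
    ((((Icc 1 H) ×ˢ (Icc 1 H)).filter (fun ab : ℕ × ℕ => ab.1 ≠ ab.2 ∧ (M : ℤ) ∣ (ab.1 : ℤ) - ab.2)).card : ℝ)
      ≤ 2 * (H : ℝ) ^ 2 / M := by
  classical
  have h1 : ∀ a ∈ Icc 1 H, ((Icc 1 H).filter (fun b : ℕ => a ≠ b ∧ (M : ℤ) ∣ (a : ℤ) - b)).card ≤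
      2 * (H / M) := by
    intro a ha
    rw [mem_Icc] at ha
    have hsub : (Icc 1 H).filter (fun b : ℕ => a ≠ b ∧ (M : ℤ) ∣ (a : ℤ) - b) ⊆
        (Icc 1 (H / M)).image (fun t => a + M * t) ∪ (Icc 1 (H / M)).image (fun t => a - M * t) := by
      intro b hb
      rw [mem_filter, mem_Icc] at hb
      obtain ⟨⟨hb1, hb2⟩, hne, c, hc⟩ := hb
      rw [mem_union, mem_image, mem_image]
      rcases lt_or_gt_of_ne hne with h | h
      · left
        have hc0 : c < 0 := by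
          by_contra hcon
          have : 0 ≤ (M : ℤ) * c := mul_nonneg (by positivity) (by omega)
          omega
        obtain ⟨t, ht⟩ : ∃ t : ℕ, (t : ℤ) = -c := ⟨(-c).toNat, by omega⟩
        have hb' : b = a + M * t := by
          have : (b : ℤ) = a + M * t := by rw [ht]; linarith
          exact_mod_cast this
        refine ⟨t, ?_, hb'.symm⟩
        rw [mem_Icc]
        refine ⟨by omega, ?_⟩
        rw [Nat.le_div_iff_mul_le hM, mul_comm]
        omega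
      · right
        have hc0 : 0 < c := by
          by_contra hcon
          have : (M : ℤ) * c ≤ 0 := mul_nonpos_of_nonneg_of_nonpos (by positivity) (by omega)
          omega
        obtain ⟨t, ht⟩ : ∃ t : ℕ, (t : ℤ) = c := ⟨c.toNat, by omega⟩
        have hb' : a = b + M * t := by
          have : (a : ℤ) = b + M * t := by rw [ht]; linarith
          exact_mod_cast this
        refine ⟨t, ?_, ?_⟩
        · rw [mem_Icc]
          refine ⟨by omega, ?_⟩
          rw [Nat.le_div_iff_mul_le hM, mul_comm]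
          omega
        · rw [hb']
          exact Nat.add_sub_cancel _ _
    refine (card_le_card hsub).trans ((card_union_le _ _).trans ?_)
    have h2 : ((Icc 1 (H / M)).image (fun t => a + M * t)).card ≤ H / M := by
      refine card_image_le.trans ?_
      rw [Nat.card_Icc, Nat.add_sub_cancel]
    have h3 : ((Icc 1 (H / M)).image (fun t => a - M * t)).card ≤ H / M := by
      refine card_image_le.trans ?_
      rw [Nat.card_Icc, Nat.add_sub_cancel]
    omega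
  have h2 : (((Icc 1 H) ×ˢ (Icc 1 H)).filter
      (fun ab : ℕ × ℕ => ab.1 ≠ ab.2 ∧ (M : ℤ) ∣ (ab.1 : ℤ) - ab.2)).card ≤ H * (2 * (H / M)) := by
    rw [card_filter, sum_product]
    calc ∑ a ∈ Icc 1 H, ∑ b ∈ Icc 1 H, (if (a, b).1 ≠ (a, b).2 ∧ (M : ℤ) ∣ ((a, b).1 : ℤ) - (a, b).2
          then 1 else 0)
        = ∑ a ∈ Icc 1 H, ((Icc 1 H).filter (fun b : ℕ => a ≠ b ∧ (M : ℤ) ∣ (a : ℤ) - b)).card := by
          refine sum_congr rfl fun a _ => ?_
          rw [card_filter]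
      _ ≤ ∑ a ∈ Icc 1 H, 2 * (H / M) := sum_le_sum h1
      _ = H * (2 * (H / M)) := by rw [sum_const, Nat.card_Icc, smul_eq_mul]; simp
  have h3 : ((H / M : ℕ) : ℝ) ≤ (H : ℝ) / M := Nat.cast_div_le
  calc ((((Icc 1 H) ×ˢ (Icc 1 H)).filter
        (fun ab : ℕ × ℕ => ab.1 ≠ ab.2 ∧ (M : ℤ) ∣ (ab.1 : ℤ) - ab.2)).card : ℝ)
      ≤ ((H * (2 * (H / M)) : ℕ) : ℝ) := by exact_mod_cast h2
    _ = H * (2 * ((H / M : ℕ) : ℝ)) := by push_cast; ring
    _ ≤ H * (2 * ((H : ℝ) / M)) := by gcongr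
    _ = 2 * (H : ℝ) ^ 2 / M := by ring

/-- the divisor product -/
noncomputable def gp (P : Finset ℕ) (c : ℝ) (h : ℤ) : ℝ :=
  ∏ p ∈ P, (1 + if (p : ℤ) ∣ h then c / (p : ℝ) else 0)

lemma gp_ge_one (P : Finset ℕ) (c : ℝ) (hc : 0 ≤ c) (h : ℤ) : 1 ≤ gp P c h := by
  unfold gp
  have h1 : (1 : ℝ) = ∏ p ∈ P, (1 : ℝ) := by simp
  rw [h1]
  refine prod_le_prod (fun _ _ => zero_le_one) fun p _ => ?_
  have : 0 ≤ (if (p : ℤ) ∣ h then c / (p : ℝ) else 0) := by split_ifs <;> positivity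
  simp only [prod_const_one]
  linarith

/-- the mean of the divisor product -/
lemma sum_gp_le (P : Finset ℕ) (hP : ∀ p ∈ P, p.Prime) (c : ℝ) (hc : 0 ≤ c) (H : ℕ) :
    ∑ ab ∈ ((Icc 1 H) ×ˢ (Icc 1 H)).filter (fun ab : ℕ × ℕ => ab.1 ≠ ab.2),
      (gp P c ((ab.1 : ℤ) - ab.2) - 1) ≤ 2 * (H : ℝ) ^ 2 * (∏ p ∈ P, (1 + c / (p : ℝ) ^ 2) - 1) := by
  classical
  set S := ((Icc 1 H) ×ˢ (Icc 1 H)).filter (fun ab : ℕ × ℕ => ab.1 ≠ ab.2) with hS
  have hexp : ∀ h : ℤ, gp P c h - 1 = ∑ D ∈ P.powerset.erase ∅,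
      ∏ p ∈ D, (if (p : ℤ) ∣ h then c / (p : ℝ) else 0) := by
    intro h
    rw [gp, prod_one_add, ← add_sum_erase _ _ (empty_mem_powerset P)]
    simp
  have hexp2 : ∏ p ∈ P, (1 + c / (p : ℝ) ^ 2) - 1 = ∑ D ∈ P.powerset.erase ∅,
      ∏ p ∈ D, c / (p : ℝ) ^ 2 := by
    rw [prod_one_add, ← add_sum_erase _ _ (empty_mem_powerset P)]
    simp
  simp only [hexp]
  rw [sum_comm, hexp2, mul_sum]
  refine sum_le_sum fun D hD => ?_
  have hDP : D ⊆ P := mem_powerset.1 (mem_of_mem_erase hD)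
  have hDp : ∀ p ∈ D, p.Prime := fun p hp => hP p (hDP hp)
  have hMpos : 0 < ∏ p ∈ D, p := prod_pos fun p hp => (hDp p hp).pos
  have h1 : ∀ ab : ℕ × ℕ, ∏ p ∈ D, (if (p : ℤ) ∣ (ab.1 : ℤ) - ab.2 then c / (p : ℝ) else 0) =
      if ((∏ p ∈ D, p : ℕ) : ℤ) ∣ (ab.1 : ℤ) - ab.2 then ∏ p ∈ D, c / (p : ℝ) else 0 := by
    intro ab
    by_cases hd : ((∏ p ∈ D, p : ℕ) : ℤ) ∣ (ab.1 : ℤ) - ab.2
    · rw [if_pos hd]
      refine prod_congr rfl fun p hp => ?_
      rw [if_pos]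
      exact (Int.natCast_dvd_natCast.2 (dvd_prod_of_mem _ hp)).trans hd
    · rw [if_neg hd]
      obtain ⟨p, hp, hnp⟩ : ∃ p ∈ D, ¬ (p : ℤ) ∣ (ab.1 : ℤ) - ab.2 := by
        by_contra hcon
        push Not at hcon
        apply hd
        push_cast
        refine Finset.prod_dvd_of_coprime ?_ hcon
        intro p hp q hq hpq
        exact Nat.isCoprime_iff_coprime.2 ((Nat.coprime_primes (hDp p hp) (hDp q hq)).2 hpq)
      exact prod_eq_zero hp (if_neg hnp)
  simp only [h1]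
  rw [← sum_filter, sum_const, nsmul_eq_mul, hS, filter_filter]
  have h2 := card_pairs_le H (∏ p ∈ D, p) hMpos
  have h3 : (0 : ℝ) ≤ ∏ p ∈ D, c / (p : ℝ) := prod_nonneg fun p _ => by positivity
  refine (mul_le_mul_of_nonneg_right h2 h3).trans (le_of_eq ?_)
  have h4 : ∏ p ∈ D, c / (p : ℝ) ^ 2 = (∏ p ∈ D, c / (p : ℝ)) / ((∏ p ∈ D, p : ℕ) : ℝ) := by
    rw [Nat.cast_prod, ← prod_div_distrib]
    refine prod_congr rfl fun p hp => ?_
    rw [pow_two, div_div]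
  rw [h4]
  ring

/-- the tail of the Euler product -/
lemma prod_tail_le (P : Finset ℕ) (c : ℝ) (hc : 0 ≤ c) (y w : ℕ) (hy : 1 ≤ y)
    (hP : ∀ p ∈ P, y < p ∧ p ≤ w) : ∏ p ∈ P, (1 + c / (p : ℝ) ^ 2) ≤ Real.exp (c / y) := by
  have h1 : ∏ p ∈ P, (1 + c / (p : ℝ) ^ 2) ≤ ∏ p ∈ P, Real.exp (c / (p : ℝ) ^ 2) :=
    prod_le_prod (fun p _ => by positivity) fun p _ => by
      have := Real.add_one_le_exp (c / (p : ℝ) ^ 2)
      linarith
  refine h1.trans ?_
  rw [← Real.exp_sum]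
  apply Real.exp_le_exp.2
  have hyR : (0 : ℝ) < y := by exact_mod_cast hy
  rcases P.eq_empty_or_nonempty with hE | ⟨p₀, hp₀⟩
  · rw [hE, sum_empty]; positivity
  have hyw : y ≤ w := by have := hP p₀ hp₀; omega
  have h2 : ∑ p ∈ P, ((p : ℝ) ^ 2)⁻¹ ≤ (y : ℝ)⁻¹ := by
    calc ∑ p ∈ P, ((p : ℝ) ^ 2)⁻¹ ≤ ∑ p ∈ Ioc y w, ((p : ℝ) ^ 2)⁻¹ :=
          sum_le_sum_of_subset_of_nonneg (fun p hp => mem_Ioc.2 (hP p hp))
            fun p _ _ => by positivity
      _ ≤ (y : ℝ)⁻¹ - (w : ℝ)⁻¹ := sum_Ioc_inv_sq_le_sub (by omega) hyw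
      _ ≤ (y : ℝ)⁻¹ := by
          have : (0 : ℝ) ≤ (w : ℝ)⁻¹ := by positivity
          linarith
  calc ∑ p ∈ P, c / (p : ℝ) ^ 2 = c * ∑ p ∈ P, ((p : ℝ) ^ 2)⁻¹ := by
        rw [mul_sum]; exact sum_congr rfl fun p _ => by rw [div_eq_mul_inv]
    _ ≤ c * (y : ℝ)⁻¹ := mul_le_mul_of_nonneg_left h2 hc
    _ = c / y := by rw [div_eq_mul_inv]

/-- two coordinates of the vectors -/
lemma sum_two_coords {k : ℕ} (H : ℕ) (i j : Fin k) (hij : i ≠ j) (G : ℕ × ℕ → ℝ) (hG : ∀ t, 0 ≤ G t) :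
    ∑ u ∈ (Fintype.piFinset (fun _ : Fin k => Icc 1 H)).filter (fun u => u i ≠ u j), G (u i, u j) ≤
      (H : ℝ) ^ (k - 2) *
        ∑ ab ∈ ((Icc 1 H) ×ˢ (Icc 1 H)).filter (fun ab : ℕ × ℕ => ab.1 ≠ ab.2), G ab := by
  classical
  set U := (Fintype.piFinset (fun _ : Fin k => Icc 1 H)).filter (fun u => u i ≠ u j) with hU
  set S := ((Icc 1 H) ×ˢ (Icc 1 H)).filter (fun ab : ℕ × ℕ => ab.1 ≠ ab.2) with hS
  have hmap : ∀ u ∈ U, (u i, u j) ∈ S := by
    intro u hu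
    rw [hU, mem_filter, Fintype.mem_piFinset] at hu
    rw [hS, mem_filter, mem_product]
    exact ⟨⟨hu.1 i, hu.1 j⟩, hu.2⟩
  rw [← sum_fiberwise_of_maps_to hmap, mul_sum]
  refine sum_le_sum fun ab _ => ?_
  have h1 : ∑ u ∈ U.filter (fun u => (u i, u j) = ab), G (u i, u j) =
      ((U.filter (fun u => (u i, u j) = ab)).card : ℝ) * G ab := by
    rw [← nsmul_eq_mul, ← sum_const]
    refine sum_congr rfl fun u hu => ?_
    rw [(mem_filter.1 hu).2]
  rw [h1]
  refine mul_le_mul_of_nonneg_right ?_ (hG ab)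
  have h2 : (U.filter (fun u => (u i, u j) = ab)).card ≤
      (Fintype.piFinset (fun l : Fin k => if l = i then {ab.1} else if l = j then {ab.2}
        else Icc 1 H)).card := by
    refine card_le_card fun u hu => ?_
    rw [mem_filter, hU, mem_filter, Fintype.mem_piFinset] at hu
    rw [Fintype.mem_piFinset]
    intro l
    split_ifs with h3 h4
    · rw [mem_singleton, h3, ← hu.2]
    · rw [mem_singleton, h4, ← hu.2]
    · exact hu.1.1 l
  rw [Fintype.card_piFinset] at h2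
  have h3 : ∏ l : Fin k, (if l = i then ({ab.1} : Finset ℕ) else if l = j then {ab.2}
        else Icc 1 H).card = H ^ (k - 2) := by
    have h4 : ∀ l : Fin k, (if l = i then ({ab.1} : Finset ℕ) else if l = j then {ab.2}
        else Icc 1 H).card = if l ∈ ({i, j} : Finset (Fin k)) then 1 else H := by
      intro l
      by_cases h5 : l = i
      · simp [h5]
      · by_cases h6 : l = j
        · simp [h6, hij.symm]
        · simp [h5, h6]
    simp only [h4]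
    rw [prod_ite, prod_const_one, one_mul, prod_const]
    congr 1
    have h5 : univ.filter (fun l : Fin k => l ∉ ({i, j} : Finset (Fin k))) = ({i, j} : Finset (Fin k))ᶜ := by
      ext l; simp
    rw [h5, card_compl, Fintype.card_fin, card_pair hij]
  rw [h3] at h2
  exact_mod_cast h2

end Pool.Agent.Run7.h480.PK
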