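import Pool.Agent.Run7.h994.PK.Stm
import Pool.Agent.Run7.h480.PK.Gen

/-!
# Project PK (helper480): the key inequality and DIV
-/

set_option autoImplicit false

namespace Pool.Agent.Run7.h480.PK

open Finset Run7.h994.PK
open Pool.Agent.H373R2.T7 (pz Vz)

lemma mem_inj {k H : ℕ} {u : Fin k → ℕ} : u ∈ inj k H ↔
    (∀ i, 1 ≤ u i ∧ u i ≤ H) ∧ Function.Injective u := by
  simp [inj, Fintype.mem_piFinset, mem_Icc]

lemma nuk_le (k : ℕ) (u : Fin k → ℕ) (p : ℕ) : nuk u p ≤ k := by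
  unfold nuk
  refine card_image_le.trans ?_
  simp

/-- if `nuk u p < k` then two entries are congruent modulo `p` -/
lemma exists_pair {k : ℕ} {u : Fin k → ℕ} {p : ℕ} (h : nuk u p < k) :
    ∃ i j : Fin k, i < j ∧ (p : ℤ) ∣ (u i : ℤ) - u j := by
  have h1 : ¬ Function.Injective (fun i : Fin k => u i % p) := by
    intro hinj
    have : nuk u p = k := by
      unfold nuk
      rw [card_image_of_injective _ hinj]
      simp
    omega
  simp only [Function.Injective, not_forall] at h1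
  obtain ⟨i, j, hij, hne⟩ := h1
  have hd : ∀ a b : Fin k, u a % p = u b % p → (p : ℤ) ∣ (u a : ℤ) - u b := by
    intro a b hab
    have := (Nat.modEq_iff_dvd (n := p) (a := u b) (b := u a)).1 hab.symm
    exact this
  rcases lt_or_gt_of_ne hne with h2 | h2
  · exact ⟨i, j, h2, hd i j hij⟩
  · exact ⟨j, i, h2, hd j i hij.symm⟩

/-- the pairs `i < j` -/
def TT (k : ℕ) : Finset (Fin k × Fin k) := univ.filter (fun t => t.1 < t.2)

/-- the product over the primes with `nuk u p < k` is at most a product over the pairs -/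
lemma prod_le_pairs {k : ℕ} (u : Fin k → ℕ) (P : Finset ℕ) (C : ℝ) (hC : 0 ≤ C) :
    ∏ p ∈ P.filter (fun p => nuk u p < k), (1 + C / (p : ℝ)) ≤
      ∏ t ∈ TT k, gp P C ((u t.1 : ℤ) - u t.2) := by
  classical
  unfold gp
  rw [prod_comm, prod_filter]
  refine prod_le_prod (fun p _ => by split_ifs <;> positivity) fun p hp => ?_
  have h0 : ∀ t : Fin k × Fin k, (1 : ℝ) ≤ 1 + if (p : ℤ) ∣ (u t.1 : ℤ) - u t.2 then C / (p : ℝ) else 0 := by
    intro t
    have : 0 ≤ (if (p : ℤ) ∣ (u t.1 : ℤ) - u t.2 then C / (p : ℝ) else 0) := by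
      split_ifs <;> positivity
    linarith
  split_ifs with h
  · obtain ⟨i, j, hij, hd⟩ := exists_pair h
    have hmem : (i, j) ∈ TT k := by simp [TT, hij]
    rw [← mul_prod_erase _ _ hmem]
    have h1 : 1 + C / (p : ℝ) = 1 + if (p : ℤ) ∣ (u (i, j).1 : ℤ) - u (i, j).2 then C / (p : ℝ) else 0 := by
      rw [if_pos hd]
    rw [h1]
    refine le_mul_of_one_le_right (le_trans zero_le_one (h0 _)) ?_
    calc (1 : ℝ) = ∏ t ∈ (TT k).erase (i, j), (1 : ℝ) := by simp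
      _ ≤ _ := prod_le_prod (fun _ _ => zero_le_one) fun t _ => h0 t
  · calc (1 : ℝ) = ∏ t ∈ TT k, (1 : ℝ) := by simp
      _ ≤ _ := prod_le_prod (fun _ _ => zero_le_one) fun t _ => h0 t

lemma gp_pow_le (P : Finset ℕ) (hP : ∀ p ∈ P, p.Prime) (C : ℝ) (hC : 0 ≤ C) (h : ℤ) (K : ℕ) :
    gp P C h ^ K ≤ gp P ((1 + C) ^ K - 1) h := by
  unfold gp
  rw [← prod_pow]
  refine prod_le_prod (fun p _ => ?_) fun p hp => ?_
  · have : 0 ≤ (if (p : ℤ) ∣ h then C / (p : ℝ) else 0) := by split_ifs <;> positivity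
    positivity
  · split_ifs
    · exact pow_one_add_le C p hC (by exact_mod_cast (hP p hp).one_le) K
    · simp

/-- **the key inequality** -/
theorem key (k : ℕ) (C : ℝ) (hC : 0 ≤ C) (P : Finset ℕ) (hP : ∀ p ∈ P, p.Prime) (y w : ℕ)
    (hy : 1 ≤ y) (hPy : ∀ p ∈ P, y < p ∧ p ≤ w) (H : ℕ) :
    ∑ u ∈ inj k H, (∏ p ∈ P.filter (fun p => nuk u p < k), (1 + C / (p : ℝ)) - 1) ≤
      2 * (H : ℝ) ^ k * (Real.exp (((1 + C) ^ (TT k).card - 1) / y) - 1) := by
  classical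
  set c : ℝ := (1 + C) ^ (TT k).card - 1 with hc
  have hc0 : 0 ≤ c := by
    have : (1 : ℝ) ≤ (1 + C) ^ (TT k).card := one_le_pow₀ (by linarith)
    linarith
  have hyR : (0 : ℝ) < y := by exact_mod_cast hy
  have hE : 0 ≤ Real.exp (c / y) - 1 := by
    have := Real.add_one_le_exp (c / y)
    have : 0 ≤ c / y := by positivity
    linarith
  rcases (TT k).eq_empty_or_nonempty with hT | hT
  · refine le_trans (sum_nonpos fun u _ => ?_) (by positivity)
    have := prod_le_pairs u P C hC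
    rw [hT, prod_empty] at this
    linarith
  have hk2 : 2 ≤ k := by
    obtain ⟨t, ht⟩ := hT
    have h1 : t.1 < t.2 := by simpa [TT] using ht
    have h2 := t.2.isLt
    have h3 : (t.1 : ℕ) < t.2 := h1
    omega
  set K := (TT k).card with hK
  have hKpos : 0 < K := card_pos.2 hT
  have hKR : (0 : ℝ) < K := by exact_mod_cast hKpos
  -- pointwise
  have hpt : ∀ u : Fin k → ℕ, ∏ p ∈ P.filter (fun p => nuk u p < k), (1 + C / (p : ℝ)) - 1 ≤
      (1 / (K : ℝ)) * ∑ t ∈ TT k, (gp P c ((u t.1 : ℤ) - u t.2) - 1) := by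
    intro u
    have h1 := prod_le_pairs u P C hC
    have h2 := amgm (TT k) hT (fun t => gp P C ((u t.1 : ℤ) - u t.2))
      (fun t _ => le_trans zero_le_one (gp_ge_one P C hC _))
    have h3 : ∑ t ∈ TT k, gp P C ((u t.1 : ℤ) - u t.2) ^ K ≤ ∑ t ∈ TT k, gp P c ((u t.1 : ℤ) - u t.2) :=
      sum_le_sum fun t _ => gp_pow_le P hP C hC _ K
    have h4 : ∑ t ∈ TT k, (gp P c ((u t.1 : ℤ) - u t.2) - 1) =
        ∑ t ∈ TT k, gp P c ((u t.1 : ℤ) - u t.2) - K := by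
      rw [sum_sub_distrib, sum_const, nsmul_eq_mul, mul_one]
    rw [h4, mul_sub]
    have h5 : (1 / (K : ℝ)) * K = 1 := by field_simp
    rw [h5]
    have h6 : (1 / (K : ℝ)) * ∑ t ∈ TT k, gp P C ((u t.1 : ℤ) - u t.2) ^ K ≤
        (1 / (K : ℝ)) * ∑ t ∈ TT k, gp P c ((u t.1 : ℤ) - u t.2) :=
      mul_le_mul_of_nonneg_left h3 (by positivity)
    linarith
  -- the sum for one pair
  have hpair : ∀ t ∈ TT k, ∑ u ∈ inj k H, (gp P c ((u t.1 : ℤ) - u t.2) - 1) ≤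
      2 * (H : ℝ) ^ k * (Real.exp (c / y) - 1) := by
    intro t ht
    have hne : t.1 ≠ t.2 := by
      have h1 : t.1 < t.2 := by simpa [TT] using ht
      exact h1.ne
    have hG : ∀ ab : ℕ × ℕ, 0 ≤ gp P c ((ab.1 : ℤ) - ab.2) - 1 := fun ab => by
      have := gp_ge_one P c hc0 ((ab.1 : ℤ) - ab.2)
      linarith
    have h1 : ∑ u ∈ inj k H, (gp P c ((u t.1 : ℤ) - u t.2) - 1) ≤
        ∑ u ∈ (Fintype.piFinset (fun _ : Fin k => Icc 1 H)).filter (fun u => u t.1 ≠ u t.2),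
          (gp P c ((u t.1 : ℤ) - u t.2) - 1) := by
      refine sum_le_sum_of_subset_of_nonneg ?_ fun u _ _ => hG (u t.1, u t.2)
      intro u hu
      rw [inj, mem_filter] at hu
      rw [mem_filter]
      exact ⟨hu.1, fun h => hne (hu.2 h)⟩
    refine h1.trans ((sum_two_coords H t.1 t.2 hne
      (fun ab => gp P c ((ab.1 : ℤ) - ab.2) - 1) hG).trans ?_)
    have h2 := sum_gp_le P hP c hc0 H
    have h3 := prod_tail_le P c hc0 y w hy hPy
    have h4 : (H : ℝ) ^ (k - 2) * (2 * (H : ℝ) ^ 2 * (∏ p ∈ P, (1 + c / (p : ℝ) ^ 2) - 1)) ≤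
        (H : ℝ) ^ (k - 2) * (2 * (H : ℝ) ^ 2 * (Real.exp (c / y) - 1)) := by
      gcongr
    refine (mul_le_mul_of_nonneg_left h2 (by positivity)).trans (h4.trans (le_of_eq ?_))
    have h5 : (H : ℝ) ^ k = (H : ℝ) ^ (k - 2) * (H : ℝ) ^ 2 := by
      rw [← pow_add]; congr 1; omega
    rw [h5]; ring
  calc ∑ u ∈ inj k H, (∏ p ∈ P.filter (fun p => nuk u p < k), (1 + C / (p : ℝ)) - 1)
      ≤ ∑ u ∈ inj k H, (1 / (K : ℝ)) * ∑ t ∈ TT k, (gp P c ((u t.1 : ℤ) - u t.2) - 1) :=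
        sum_le_sum fun u _ => hpt u
    _ = (1 / (K : ℝ)) * ∑ t ∈ TT k, ∑ u ∈ inj k H, (gp P c ((u t.1 : ℤ) - u t.2) - 1) := by
        rw [← mul_sum, sum_comm]
    _ ≤ (1 / (K : ℝ)) * ∑ t ∈ TT k, 2 * (H : ℝ) ^ k * (Real.exp (c / y) - 1) :=
        mul_le_mul_of_nonneg_left (sum_le_sum hpair) (by positivity)
    _ = 2 * (H : ℝ) ^ k * (Real.exp (c / y) - 1) := by
        rw [sum_const, nsmul_eq_mul, ← hK]
        field_simp

lemma card_inj_le (k H : ℕ) : ((inj k H).card : ℝ) ≤ (H : ℝ) ^ k := by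
  have h1 : (inj k H).card ≤ H ^ k := by
    unfold inj
    refine (card_filter_le _ _).trans ?_
    rw [Fintype.card_piFinset]
    simp
  exact_mod_cast h1

/-- **DIV** -/
theorem div (k : ℕ) : S_DIVk k := by
  intro C hC
  set c : ℝ := (1 + C) ^ (TT k).card - 1 with hc
  have hc0 : 0 ≤ c := by
    have : (1 : ℝ) ≤ (1 + C) ^ (TT k).card := one_le_pow₀ (by linarith)
    linarith
  have hE : 0 ≤ Real.exp (c / (1 : ℕ)) - 1 := by
    have := Real.add_one_le_exp (c / (1 : ℕ))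
    have : 0 ≤ c / (1 : ℕ) := by positivity
    linarith
  refine ⟨1 + 2 * (Real.exp (c / (1 : ℕ)) - 1), by linarith, fun H _ w => ?_⟩
  have hP : ∀ p ∈ pz w, p.Prime := fun p hp => (mem_filter.1 hp).2
  have h1 := key k C hC (pz w) hP 1 w le_rfl (fun p hp => ⟨(hP p hp).one_lt,
    (mem_Icc.1 (mem_filter.1 hp).1).2⟩) H
  rw [sum_sub_distrib, sum_const, nsmul_eq_mul, mul_one, ← hc] at h1
  have h2 := card_inj_le k H
  have h3 : (1 + 2 * (Real.exp (c / (1 : ℕ)) - 1)) * (H : ℝ) ^ k =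
      (H : ℝ) ^ k + 2 * (H : ℝ) ^ k * (Real.exp (c / (1 : ℕ)) - 1) := by ring
  rw [h3]
  linarith

end Pool.Agent.Run7.h480.PK
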